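import Pool.Agent.SKg.Glue
import Pool.Agent.SplG.Prep
import Pool.Agent.SplH.Final

set_option autoImplicit false

/-!
# It is consistent that the splitting number of an uncountable regular cardinal is singular

Let `κ` be an inaccessible cardinal which is supercompact: for every set `Θ` there is a fine normal `κ`-complete
ultrafilter on the set of the subsets of `Θ` of cardinality less than `κ` (no cardinal arithmetic is assumed). Then there
is a countable wellfounded model of `ZFC` with an uncountable regular cardinal `k` whose splitting number is a singular
cardinal `l` (of countable cofinality).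

Proof: forcing with a preparation `R` which makes the measurability of `κ` indestructible under `κ`-directed closed forcing
notions with the `κ⁺`-chain condition of size less than `(2^κ)^{+ω}` (`Pool.Agent.SplG`), followed by an iteration with
supports of size less than `κ` of Mathias forcings for names of ultrafilters over small suborders (`Pool.Agent.SKg`,
`Pool.Agent.SKap`), and a generic extension of a countable model, in which the bound `s(k) ≤ (2^κ)^{+ω}` is proved
(`Pool.Agent.SplH`): the sets which are needed belong to the ground model as all their initial segments do.
-/

namespace Pool.Agent.Results.MP_72b20c_lc.SingularSplittingNumber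

open Cardinal Pool.Agent.SplK Pool.Agent.H55.SC Pool.Agent.H55.CS
open Pool.Agent.SplC (IsBij IsCard IsRegularUncountable IsSingular IsLarge SplitsAt IsSplittingFamily IsSplittingNumber)

/-- It is consistent (relative to a supercompact cardinal) that the splitting number of an uncountable regular cardinal is
singular. -/
theorem result (κ : Cardinal.{0}) (inacc : κ.IsInaccessible)
    (supercompact : ∀ Θ : Type, ∃ W : Ultrafilter (Set Θ), NFU κ Θ W) :
    ∃ (M : Type 1) (E : M → M → Prop), Countable M ∧ WellFounded E ∧ ZFC E ∧
      ∃ w k l : M, IsOmega E w ∧ IsRegularUncountable E w k ∧ IsSingular E l ∧ E k l ∧ IsSplittingNumber E k l := by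
  have hK : Inac κ.ord.ToType := inac_ord inacc
  have hκ : #κ.ord.ToType = κ := by rw [Cardinal.mk_toType, Cardinal.card_ord]
  obtain ⟨R, i1, i2, hR⟩ := Pool.Agent.SplG.prep κ.ord.ToType hK (by rw [hκ]; exact supercompact)
  obtain ⟨T, P, hP⟩ := Pool.Agent.SKg.kfrc_of_prep' κ.ord.ToType hK R hR
  exact Pool.Agent.SplH.splh_final hK hP

end Pool.Agent.Results.MP_72b20c_lc.SingularSplittingNumber
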