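import Mathlib
import Pool.Agent.SKap.PartOne

set_option autoImplicit false

/-!
# The splitting number of a regular uncountable cardinal below which the continuum function is small

If `2 ^ a < a^{+ω}` for all infinite `a < κ` then `s(κ) ≤ κ^{+ω}`; the only possible singular value of `s(κ)` above `κ` is then
`κ^{+ω}`. If `2 ^ a ≤ a^{+n}` for all infinite `a < κ` then `s(κ) ≤ κ^{+(n+1)}`.
-/

namespace Pool.Agent.Results.MP_72b20c_lc.SingularValueBound

open Cardinal Pool.Agent.SKap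

universe u

/-- Let `κ` be regular and uncountable. (1) If for every infinite `a < κ` there is `n` with `2 ^ a ≤ a^{+n}`, then
`s(κ) ≤ κ^{+ω}`, and if moreover `s(κ) > κ` is singular, then `s(κ) = κ^{+ω}`. (2) If `n` is such that
`2 ^ a ≤ a^{+n}` for every infinite `a < κ`, then `s(κ) ≤ κ^{+(n+1)}`. -/
theorem result (κ : Cardinal.{u}) (hκ : κ.IsRegular) (h0 : ℵ₀ < κ) :
    ((∀ a : Cardinal.{u}, ℵ₀ ≤ a → a < κ → ∃ n : ℕ, 2 ^ a ≤ (Order.succ^[n]) a) →
      splittingNumber κ ≤ ⨆ n : ℕ, (Order.succ^[n]) κ ∧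
      (κ < splittingNumber κ → ¬ (splittingNumber κ).IsRegular →
        splittingNumber κ = ⨆ n : ℕ, (Order.succ^[n]) κ)) ∧
    (∀ n : ℕ, (∀ a : Cardinal.{u}, ℵ₀ ≤ a → a < κ → 2 ^ a ≤ (Order.succ^[n]) a) → splittingNumber κ ≤ (Order.succ^[n + 1]) κ) :=
  ⟨fun h => ⟨main hκ h0 h, main_singular hκ h0 h⟩, fun n h => main_fin hκ h0 n h⟩

end Pool.Agent.Results.MP_72b20c_lc.SingularValueBound
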